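import Mathlib
import Pool.Agent.Y248.FD.Stm2
set_option autoImplicit false

/-! # Project FD (helper248, MP_c7bdf0_an), job 4013: from the exponent `2n/(n+1)` to all smaller exponents -/

namespace Pool.Agent.Y274.FD

open MeasureTheory Set Metric Complex Filter
open scoped ENNReal RealInnerProductSpace Topology FourierTransform SchwartzMap
open Pool.Agent.H789R2.FR (E sg T)
open Pool.Agent.H438R2.RZ (Bump)
open Pool.Agent.Y248.BA
open Pool.Agent.Y248.FB Pool.Agent.Y248.FC Pool.Agent.Y248.FD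
open Pool.Agent.Y71.FB (sigmaFinite schur Jw_lint)

/-- the cutoff -/
noncomputable def ph (n : ℕ) (ξ : E n) : ℂ := ((Real.smoothTransition (2 - ‖ξ‖ ^ 2) : ℝ) : ℂ)

theorem ph_one {n : ℕ} (ξ : E n) (h : ‖ξ‖ ≤ 1) : ph n ξ = 1 := by
  unfold ph
  rw [Real.smoothTransition.one_of_one_le (by nlinarith [norm_nonneg ξ])]
  simp

theorem ph_zero {n : ℕ} (ξ : E n) (h : 2 < ‖ξ‖) : ph n ξ = 0 := by
  unfold ph
  rw [Real.smoothTransition.zero_of_nonpos (by nlinarith)]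
  simp

theorem ph_smooth (n : ℕ) : ContDiff ℝ (⊤ : ℕ∞) (ph n) :=
  Complex.ofRealCLM.contDiff.comp
    (Real.smoothTransition.contDiff.comp (contDiff_const.sub (contDiff_norm_sq ℝ)))

theorem ph_comp (n : ℕ) : HasCompactSupport (ph n) :=
  HasCompactSupport.intro (isCompact_closedBall (0 : E n) 2) fun ξ hξ => by
    rw [mem_closedBall_zero_iff] at hξ
    push Not at hξ
    exact ph_zero ξ hξ

/-- the cutoff as a Schwartz function -/
noncomputable def phS (n : ℕ) : 𝓢(E n, ℂ) := (ph_comp n).toSchwartzMap (ph_smooth n)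

/-- the kernel of the band limitation -/
noncomputable def Kp (n : ℕ) : E n → ℂ := 𝓕 (ph n)

theorem Kp_eq (n : ℕ) (x : E n) : Kp n x = (𝓕 (phS n)) x := by
  rw [SchwartzMap.fourier_coe]
  rfl

theorem Kp_bd (n : ℕ) : ∃ C : ℝ, 0 < C ∧ ∀ w : E n, ‖Kp n w‖ ≤ C * Jw w := by
  have h := fun w : E n => SchwartzMap.one_add_le_sup_seminorm_apply (𝕜 := ℝ) (m := (n + 1, 0))
    (k := n + 1) (n := 0) le_rfl le_rfl (𝓕 (phS n)) w
  simp only [norm_iteratedFDeriv_zero, ← Kp_eq] at h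
  set S : ℝ := 2 ^ (n + 1) * ((Finset.Iic ((n + 1, 0) : ℕ × ℕ)).sup
    (fun m => SchwartzMap.seminorm ℝ m.1 m.2)) (𝓕 (phS n)) with hS
  refine ⟨max S 1, by positivity, fun w => ?_⟩
  have h1 : 0 < 1 + ‖w‖ := by positivity
  have h2 : Jw w = ((1 + ‖w‖) ^ (n + 1))⁻¹ := by
    unfold Jw
    rw [Real.rpow_neg h1.le]
    congr 1
    exact_mod_cast Real.rpow_natCast (1 + ‖w‖) (n + 1)
  rw [h2, ← div_eq_mul_inv, le_div_iff₀ (by positivity), mul_comm]
  exact (h w).trans (le_max_left _ _)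

theorem Kp_int (n : ℕ) : Integrable (Kp n) := by
  have h : Kp n = fun x => (𝓕 (phS n)) x := funext fun x => Kp_eq n x
  rw [h]
  exact (𝓕 (phS n)).integrable

theorem Kp_cont (n : ℕ) : Continuous (Kp n) := by
  have h : Kp n = fun x => (𝓕 (phS n)) x := funext fun x => Kp_eq n x
  rw [h]
  exact (𝓕 (phS n)).continuous

theorem ph_int (n : ℕ) : Integrable (ph n) :=
  (ph_smooth n).continuous.integrable_of_hasCompactSupport (ph_comp n)

theorem gh_Kp (n : ℕ) (ξ : E n) : gh (Kp n) ξ = ph n ξ := by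
  have h : 𝓕⁻ (𝓕 (ph n)) = ph n :=
    (ph_smooth n).continuous.fourierInv_fourier_eq (ph_int n) (Kp_int n)
  unfold gh
  rw [← Real.fourierInv_eq_fourier_neg]
  exact congrFun h ξ

theorem mu_ph {n : ℕ} {ψ : ℝ → ℝ} (hψ : Bump ψ) {A : ℝ} (hA : 0 < A) (ξ : E n) :
    mu ψ A 1 ξ * ph n ξ = mu ψ A 1 ξ := by
  by_cases h : ‖ξ‖ ≤ 1
  · rw [ph_one ξ h, mul_one]
  · rw [mu_far hψ hA one_pos ξ (by linarith), zero_mul]

theorem kr_rep {n : ℕ} {ψ : ℝ → ℝ} (hψ : Bump ψ) {A : ℝ} (hA : 0 < A) (x : E n) :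
    ∫ w, Kr ψ A 1 (x - w) * Kp n w = Kr ψ A 1 x := by
  unfold Kr
  rw [conv_eq (mu_int hψ hA one_pos (by norm_num)) (Kp_int n) x]
  have h : (fun ξ : E n => mu ψ A 1 ξ * gh (Kp n) ξ) = mu ψ A 1 := by
    funext ξ
    rw [gh_Kp, mu_ph hψ hA]
  rw [h]

/-- the band limited function -/
noncomputable def Pf {n : ℕ} (f : E n → ℂ) (y : E n) : ℂ := ∫ z, Kp n (y - z) * f z

theorem Pf_prod {n : ℕ} {f : E n → ℂ} (hf : Integrable f) :
    Integrable (fun z : E n × E n => Kp n (z.1 - z.2) * f z.2)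
      ((volume : Measure (E n)).prod volume) := by
  have h := hf.convolution_integrand (ContinuousLinearMap.mul ℝ ℂ) (Kp_int n)
  refine h.congr (Eventually.of_forall fun z => ?_)
  simp only [ContinuousLinearMap.mul_apply']
  exact mul_comm _ _

theorem Pf_int {n : ℕ} {f : E n → ℂ} (hf : Integrable f) : Integrable (Pf f) :=
  (Pf_prod hf).integral_prod_left

theorem Pf_meas {n : ℕ} {f : E n → ℂ} (hf : Measurable f) : Measurable (Pf f) := by
  have hm : Measurable fun z : E n × E n => Kp n (z.1 - z.2) * f z.2 :=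
    ((Kp_cont n).measurable.comp (measurable_fst.sub measurable_snd)).mul (hf.comp measurable_snd)
  exact (hm.stronglyMeasurable.integral_prod_right' (ν := (volume : Measure (E n)))).measurable

theorem Kr_bdd {n : ℕ} (ψ : ℝ → ℝ) (A : ℝ) (x : E n) :
    ‖Kr ψ A 1 x‖ ≤ ∫ ξ : E n, ‖mu ψ A 1 ξ‖ := four_bdd _ _

theorem Kr_cont {n : ℕ} {ψ : ℝ → ℝ} (hψ : Bump ψ) {A : ℝ} (hA : 0 < A) :
    Continuous (Kr (n := n) ψ A 1) := four_cont (mu_int hψ hA one_pos (by norm_num))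

theorem Tp_Pf {n : ℕ} {ψ : ℝ → ℝ} (hψ : Bump ψ) {A : ℝ} (hA : 0 < A) {f : E n → ℂ}
    (hf : Integrable f) (x : E n) : Tp ψ A 1 (Pf f) x = Tp ψ A 1 f x := by
  have hprod : Integrable (fun z : E n × E n => Kr ψ A 1 (x - z.1) * (Kp n (z.1 - z.2) * f z.2))
      ((volume : Measure (E n)).prod volume) := by
    have h1 := (Pf_prod hf).mul_bdd (c := ∫ ξ : E n, ‖mu ψ A 1 ξ‖)
      (g := fun z : E n × E n => Kr ψ A 1 (x - z.1))
      (((Kr_cont hψ hA).comp (continuous_const.sub continuous_fst)).aestronglyMeasurable)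
      (Eventually.of_forall fun z => Kr_bdd ψ A _)
    exact h1.congr (Eventually.of_forall fun z => mul_comm _ _)
  unfold Tp Pf
  have e1 : ∀ y, Kr ψ A 1 (x - y) * ∫ z, Kp n (y - z) * f z =
      ∫ z, Kr ψ A 1 (x - y) * (Kp n (y - z) * f z) := fun y => (integral_const_mul _ _).symm
  simp only [e1]
  rw [integral_integral_swap hprod]
  congr 1; funext z
  have e2 : ∫ y, Kr ψ A 1 (x - y) * (Kp n (y - z) * f z) =
      (∫ y, Kr ψ A 1 (x - y) * Kp n (y - z)) * f z := by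
    rw [← integral_mul_const]
    congr 1; funext y; ring
  rw [e2]
  congr 1
  rw [← kr_rep hψ hA (x - z), ← integral_sub_right_eq_self
    (fun w => Kr ψ A 1 ((x - z) - w) * Kp n w) z]
  congr 1; funext y
  congr 2
  abel

/-- the majorant -/
noncomputable def Ph {n : ℕ} (f : E n → ℂ) (x : E n) : ℝ≥0∞ :=
  ∫⁻ y, ENNReal.ofReal (Jw (x - y)) * ‖f y‖ₑ

theorem Pf_le {n : ℕ} {C : ℝ} (hC : 0 < C) (hb : ∀ w : E n, ‖Kp n w‖ ≤ C * Jw w) (f : E n → ℂ)
    (x : E n) : ‖Pf f x‖ₑ ≤ ENNReal.ofReal C * Ph f x := by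
  unfold Pf Ph
  rw [← lintegral_const_mul' _ _ ENNReal.ofReal_ne_top]
  refine (enorm_integral_le_lintegral_enorm _).trans (lintegral_mono fun y => ?_)
  rw [enorm_mul, ← mul_assoc]
  refine mul_le_mul' ?_ le_rfl
  rw [← ofReal_norm, ← ENNReal.ofReal_mul hC.le]
  exact ENNReal.ofReal_le_ofReal (hb _)

theorem Ph_sup {n : ℕ} {CJ : ℝ} (hCJ : 0 < CJ)
    (hJ : ∫⁻ x : E n, ENNReal.ofReal (Jw x) = ENNReal.ofReal CJ) {f : E n → ℂ} (hf : Measurable f)
    (p : ℝ) (hp : 1 ≤ p) (x : E n) :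
    (Ph f x) ^ p ≤ ENNReal.ofReal (CJ ^ (p - 1) * 2 ^ (n + 1)) * ∫⁻ y, ‖f y‖ₑ ^ p := by
  have hd : Dim (n : ℝ) (Measure.dirac x : Measure (E n)) := by
    intro y r hr
    refine prob_le_one.trans ?_
    rw [← ENNReal.ofReal_one]
    exact ENNReal.ofReal_le_ofReal (Real.one_le_rpow hr (by positivity))
  have h := schur le_rfl hd (fun y => ‖f y‖ₑ) hf.enorm p hp
  rw [lintegral_dirac, hJ, ENNReal.ofReal_rpow_of_pos hCJ, ← ENNReal.ofReal_mul (by positivity)] at h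
  exact h

theorem Ph_int {n : ℕ} {CJ V : ℝ} (hCJ : 0 < CJ) (hV : 0 < V)
    (hVb : ∀ (u : E n) (r : ℝ), 0 ≤ r →
      (volume : Measure (E n)) (closedBall u r) = ENNReal.ofReal (V * r ^ n))
    (hJ : ∫⁻ x : E n, ENNReal.ofReal (Jw x) = ENNReal.ofReal CJ) {f : E n → ℂ} (hf : Measurable f)
    (p : ℝ) (hp : 1 ≤ p) :
    ∫⁻ x, (Ph f x) ^ p ≤ ENNReal.ofReal (V * (CJ ^ (p - 1) * 2 ^ (n + 1))) * ∫⁻ y, ‖f y‖ₑ ^ p := by
  have hD : DimC (n : ℝ) V (volume : Measure (E n)) := by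
    intro y r hr
    rw [hVb y r (by linarith), Real.rpow_natCast]
  have hd := Dim.of_smul hV hD
  have h := schur le_rfl hd (fun y => ‖f y‖ₑ) hf.enorm p hp
  rw [lintegral_smul_measure, smul_eq_mul, hJ, ENNReal.ofReal_rpow_of_pos hCJ,
    ← ENNReal.ofReal_mul (by positivity)] at h
  have h2 := mul_le_mul' (le_refl (ENNReal.ofReal V)) h
  rw [← mul_assoc, ← ENNReal.ofReal_mul hV.le, mul_inv_cancel₀ hV.ne', ENNReal.ofReal_one, one_mul,
    ← mul_assoc, ← ENNReal.ofReal_mul hV.le] at h2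
  exact h2

theorem Ph_meas {n : ℕ} {f : E n → ℂ} (hf : Measurable f) : Measurable (Ph f) := by
  refine Measurable.lintegral_prod_right' (f := fun z : E n × E n =>
    ENNReal.ofReal (Jw (z.1 - z.2)) * ‖f z.2‖ₑ) ?_
  exact ((Jw_cont.measurable.comp (measurable_fst.sub measurable_snd)).ennreal_ofReal).mul
    (hf.comp measurable_snd).enorm

theorem Pf_q (n : ℕ) (p q : ℝ) (hp : 1 ≤ p) (hpq : p < q) : ∃ C : ℝ, 0 < C ∧ ∀ f : E n → ℂ,
    Measurable f → ∫⁻ y, ‖Pf f y‖ₑ ^ q ≤ ENNReal.ofReal C * (∫⁻ y, ‖f y‖ₑ ^ p) ^ (q / p) := by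
  obtain ⟨C0, hC0, hb⟩ := Kp_bd n
  obtain ⟨V, hV, hVb⟩ := ball_vol n
  obtain ⟨CJ, hCJ, hJ⟩ := Jw_lint n
  have hp0 : 0 < p := by linarith
  have hq0 : 0 < q := by linarith
  set K : ℝ := CJ ^ (p - 1) * 2 ^ (n + 1) with hK
  have hK0 : 0 < K := by positivity
  refine ⟨C0 ^ q * (K ^ ((q - p) / p) * (V * K)), by positivity, fun f hf => ?_⟩
  set N : ℝ≥0∞ := ∫⁻ y, ‖f y‖ₑ ^ p with hN
  have h1 : ∀ x, (Ph f x) ^ q ≤ (ENNReal.ofReal K * N) ^ ((q - p) / p) * (Ph f x) ^ p := by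
    intro x
    have h2 := Ph_sup hCJ hJ hf p hp x
    have h3 : (Ph f x) ^ q = ((Ph f x) ^ p) ^ ((q - p) / p) * (Ph f x) ^ p := by
      rw [← ENNReal.rpow_mul, ← ENNReal.rpow_add_of_nonneg _ _
        (mul_nonneg hp0.le (div_nonneg (by linarith) hp0.le)) hp0.le]
      congr 1
      field_simp
      ring
    rw [h3]
    refine mul_le_mul' (ENNReal.rpow_le_rpow h2 (div_nonneg (by linarith) hp0.le)) le_rfl
  calc ∫⁻ y, ‖Pf f y‖ₑ ^ q ≤ ∫⁻ y, ENNReal.ofReal (C0 ^ q) * (Ph f y) ^ q := by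
        refine lintegral_mono fun y => ?_
        rw [← ENNReal.ofReal_rpow_of_pos hC0, ← ENNReal.mul_rpow_of_nonneg _ _ hq0.le]
        exact ENNReal.rpow_le_rpow (Pf_le hC0 hb f y) hq0.le
    _ ≤ ∫⁻ y, ENNReal.ofReal (C0 ^ q) *
          ((ENNReal.ofReal K * N) ^ ((q - p) / p) * (Ph f y) ^ p) :=
        lintegral_mono fun y => mul_le_mul' le_rfl (h1 y)
    _ = ENNReal.ofReal (C0 ^ q) * ((ENNReal.ofReal K * N) ^ ((q - p) / p) *
          ∫⁻ y, (Ph f y) ^ p) := by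
        rw [lintegral_const_mul _ (((Ph_meas hf).pow_const _).const_mul _),
          lintegral_const_mul _ ((Ph_meas hf).pow_const _)]
    _ ≤ ENNReal.ofReal (C0 ^ q) * ((ENNReal.ofReal K * N) ^ ((q - p) / p) *
          (ENNReal.ofReal (V * K) * N)) := by
        gcongr
        exact Ph_int hCJ hV hVb hJ hf p hp
    _ = ENNReal.ofReal (C0 ^ q * (K ^ ((q - p) / p) * (V * K))) * N ^ (q / p) := by
        have h4 : N ^ (q / p) = N ^ ((q - p) / p) * N := by
          conv_rhs => rw [← ENNReal.rpow_one N, ← ENNReal.rpow_mul, one_mul]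
          rw [← ENNReal.rpow_add_of_nonneg _ _ (div_nonneg (by linarith) hp0.le) zero_le_one]
          congr 1
          field_simp
          ring
        have h5 : ENNReal.ofReal (C0 ^ q * (K ^ ((q - p) / p) * (V * K))) =
            ENNReal.ofReal (C0 ^ q) * (ENNReal.ofReal (K ^ ((q - p) / p)) *
              ENNReal.ofReal (V * K)) := by
          rw [ENNReal.ofReal_mul (p := C0 ^ q) (q := K ^ ((q - p) / p) * (V * K)) (by positivity),
            ENNReal.ofReal_mul (p := K ^ ((q - p) / p)) (q := V * K) (by positivity)]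
        rw [h4, h5, ENNReal.mul_rpow_of_nonneg _ _ (div_nonneg (by linarith) hp0.le),
          ENNReal.ofReal_rpow_of_pos hK0]
        ring

/-- Hölder's inequality -/
theorem hol {n : ℕ} (μ : Measure (E n)) (B : Set (E n)) {F : E n → ℂ} (hF : Measurable F)
    {p q : ℝ} (hp : 0 < p) (hpq : p < q) :
    ∫⁻ x in B, ‖F x‖ₑ ^ p ∂μ ≤ (μ B) ^ (1 - p / q) * (∫⁻ x, ‖F x‖ₑ ^ q ∂μ) ^ (p / q) := by
  have hq : 0 < q := hp.trans hpq
  have hc : (q / p).HolderConjugate (q / (q - p)) := by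
    rw [Real.holderConjugate_iff]
    refine ⟨(one_lt_div hp).2 hpq, ?_⟩
    rw [inv_div, inv_div, ← add_div, add_sub_cancel, div_self hq.ne']
  have h := ENNReal.lintegral_mul_le_Lp_mul_Lq (μ.restrict B) hc (f := fun x => ‖F x‖ₑ ^ p)
    (g := fun _ => 1) (hF.enorm.pow_const _).aemeasurable aemeasurable_const
  simp only [Pi.mul_apply, mul_one, ENNReal.one_rpow, lintegral_const, one_mul,
    Measure.restrict_apply_univ] at h
  refine h.trans ?_
  rw [mul_comm]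
  have e1 : 1 / (q / (q - p)) = 1 - p / q := by
    field_simp
  have e2 : 1 / (q / p) = p / q := by
    field_simp
  rw [e1, e2]
  refine mul_le_mul' le_rfl (ENNReal.rpow_le_rpow ?_ (by positivity))
  refine le_trans (le_of_eq ?_) (setLIntegral_le_lintegral B _)
  refine lintegral_congr fun x => ?_
  rw [← ENNReal.rpow_mul]
  congr 1
  field_simp

theorem t_dn (n : ℕ) (hn : 2 ≤ n) : S_DN n := by
  intro X D hD hX hQ p σ hp hpq hσ
  have hn0 : (0 : ℝ) < n := by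
    have : 0 < n := by omega
    exact_mod_cast this
  set q : ℝ := 2 * (n : ℝ) / ((n : ℝ) + 1) with hq
  set s0 : ℝ := (n : ℝ) * (1 / p - 1 / 2) - 1 / 2 with hs0
  set η : ℝ := (σ - s0) / 2 with hη
  have hη0 : 0 < η := by
    rw [hη]; linarith
  have hp0 : 0 < p := by linarith
  have hq0 : 0 < q := by linarith
  have e1 : (n : ℝ) * (1 - p / q) = p * s0 := by
    rw [hs0, hq]
    field_simp
    ring
  have hpq1 : p / q < 1 := (div_lt_one hq0).2 hpq
  have hpq0 : 0 < p / q := by positivity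
  refine pq_of_local n hn X D hD hX p (η / n) σ hp (by positivity) ?_
  intro ψ hψ
  obtain ⟨C1, hC1, h1⟩ := hQ η hη0 ψ hψ
  obtain ⟨C2, hC2, h2⟩ := Pf_q n p q hp hpq
  refine ⟨D ^ (1 - p / q) * (C1 * C2) ^ (p / q), by positivity, ?_⟩
  intro μ hμ A hA u f hf hfi _ hfp
  have hA0 : 0 < A := by linarith
  set B := closedBall u (A ^ (1 + η / n)) with hB
  set N := ∫⁻ x, ‖f x‖ₑ ^ p with hN
  have hPm : Measurable (Pf f) := Pf_meas hf
  have hPi : Integrable (Pf f) := Pf_int hfi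
  have h3 := h2 f hf
  rw [← hN] at h3
  have h4 : ∫⁻ y, ‖Pf f y‖ₑ ^ q ≠ ∞ := ne_top_of_le_ne_top
    (ENNReal.mul_ne_top ENNReal.ofReal_ne_top (ENNReal.rpow_ne_top_of_nonneg (by positivity) hfp)) h3
  have h5 := h1 μ hμ A hA (Pf f) hPm hPi h4
  have h6 : ∀ x, Tp ψ A 1 (Pf f) x = Tp ψ A 1 f x := fun x => Tp_Pf hψ hA0 hfi x
  simp only [h6] at h5
  have hTm : Measurable (fun x => Tp ψ A 1 f x) :=
    Pool.Agent.Y71.FB.Tp_jm hψ A (R := fun _ => 1) measurable_const hf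
  have h7 := hol μ B hTm hp0 hpq
  have h8 : (μ B) ^ (1 - p / q) ≤
      ENNReal.ofReal (D ^ (1 - p / q) * A ^ ((1 + η / n) * n * (1 - p / q))) := by
    refine (ENNReal.rpow_le_rpow (hX μ hμ u _ (Real.one_le_rpow hA (by positivity)))
      (by linarith)).trans (le_of_eq ?_)
    rw [ENNReal.ofReal_rpow_of_pos (by positivity), Real.mul_rpow hD.le (by positivity),
      ← Real.rpow_mul hA0.le, ← Real.rpow_mul hA0.le]
  have h9 : (∫⁻ x, ‖Tp ψ A 1 f x‖ₑ ^ q ∂μ) ^ (p / q) ≤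
      ENNReal.ofReal ((C1 * C2) ^ (p / q) * A ^ (p * η)) * N := by
    have h10 := h5.trans (mul_le_mul' (le_refl _) h3)
    refine (ENNReal.rpow_le_rpow h10 hpq0.le).trans (le_of_eq ?_)
    rw [← mul_assoc, ← ENNReal.ofReal_mul (by positivity), ENNReal.mul_rpow_of_nonneg _ _ hpq0.le,
      ← ENNReal.rpow_mul, ENNReal.ofReal_rpow_of_pos (by positivity)]
    have e2 : q / p * (p / q) = 1 := by field_simp
    rw [e2, ENNReal.rpow_one]
    congr 2
    rw [show C1 * A ^ (q * η) * C2 = (C1 * C2) * A ^ (q * η) by ring,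
      Real.mul_rpow (by positivity) (by positivity), ← Real.rpow_mul hA0.le]
    congr 2
    field_simp
  refine h7.trans ((mul_le_mul' h8 h9).trans ?_)
  rw [← mul_assoc, ← ENNReal.ofReal_mul (by positivity)]
  refine mul_le_mul' (ENNReal.ofReal_le_ofReal ?_) le_rfl
  have e3 : D ^ (1 - p / q) * A ^ ((1 + η / n) * n * (1 - p / q)) *
      ((C1 * C2) ^ (p / q) * A ^ (p * η)) =
      D ^ (1 - p / q) * (C1 * C2) ^ (p / q) * A ^ ((1 + η / n) * n * (1 - p / q) + p * η) := by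
    rw [Real.rpow_add hA0]
    ring
  rw [e3]
  refine mul_le_mul_of_nonneg_left ?_ (by positivity)
  refine Real.rpow_le_rpow_of_exponent_le hA ?_
  have e4 : (1 + η / n) * n * (1 - p / q) = p * s0 + η * (1 - p / q) := by
    rw [← e1]
    field_simp
  rw [e4]
  have e5 : p * σ = p * s0 + 2 * (p * η) := by
    rw [hη]; ring
  rw [e5]
  have h11 : η * (1 - p / q) ≤ p * η := by
    nlinarith
  linarith

end Pool.Agent.Y274.FD
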